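import Pool.Agent.W345.VO.Stm

/-!
Project VO (helper683 for helper345): the operator `K` (S_KK).
-/

set_option autoImplicit false

namespace Pool.Agent.W683.VO

open Pool.Agent.W345.VO

universe u

variable {M : Type u} [AddCommGroup M] [Module ℂ M]

/-- truncation for the Heisenberg operators -/
theorem h_trunc (ρ : Rep M) (w : M) : ∃ N : ℕ, ∀ l : ℕ, N ≤ l → ρ.h ((l : ℤ) + 1) w = 0 := by
  have hw : w ∈ ⨆ d, ρ.deg d := by
    rw [ρ.internal.submodule_iSup_eq_top]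
    exact Submodule.mem_top
  refine Submodule.iSup_induction ρ.deg
    (motive := fun w => ∃ N : ℕ, ∀ l : ℕ, N ≤ l → ρ.h ((l : ℤ) + 1) w = 0) hw ?_ ?_ ?_
  · intro d x hx
    refine ⟨d, fun l hl => ?_⟩
    refine (ρ.h_deg _ d x hx).2 ?_
    have : (d : ℤ) ≤ l := by exact_mod_cast hl
    linarith
  · exact ⟨0, fun l _ => map_zero _⟩
  · rintro x y ⟨N, hN⟩ ⟨N', hN'⟩
    refine ⟨max N N', fun l hl => ?_⟩
    rw [map_add, hN l (le_trans (le_max_left _ _) hl), hN' l (le_trans (le_max_right _ _) hl),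
      add_zero]

/-- the terms of `K` -/
noncomputable def g (ρ : Rep M) (l : ℕ) : M →ₗ[ℂ] M :=
  (ρ.h (-(l : ℤ) - 1)).comp (ρ.h ((l : ℤ) + 1))

theorem g_apply (ρ : Rep M) (l : ℕ) (w : M) :
    g ρ l w = ρ.h (-(l : ℤ) - 1) (ρ.h ((l : ℤ) + 1) w) := rfl

theorem sum_eq (ρ : Rep M) (w : M) (N : ℕ) (hN : ∀ l : ℕ, N ≤ l → ρ.h ((l : ℤ) + 1) w = 0) :
    ∑ᶠ l : ℕ, g ρ l w = ∑ l ∈ Finset.range N, g ρ l w := by
  refine finsum_eq_sum_of_support_subset _ ?_
  intro l hl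
  rw [Function.mem_support] at hl
  rw [Finset.mem_coe, Finset.mem_range]
  by_contra h
  refine hl ?_
  rw [g_apply, hN l (not_lt.1 h), map_zero]

/-- the operator `K` -/
noncomputable def K (ρ : Rep M) : Module.End ℂ M where
  toFun w := (1 / 2 : ℂ) • ∑ᶠ l : ℕ, g ρ l w
  map_add' x y := by
    obtain ⟨N, hN⟩ := h_trunc ρ x
    obtain ⟨N', hN'⟩ := h_trunc ρ y
    have h1 : ∀ l : ℕ, max N N' ≤ l → ρ.h ((l : ℤ) + 1) x = 0 :=
      fun l hl => hN l (le_trans (le_max_left _ _) hl)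
    have h2 : ∀ l : ℕ, max N N' ≤ l → ρ.h ((l : ℤ) + 1) y = 0 :=
      fun l hl => hN' l (le_trans (le_max_right _ _) hl)
    rw [sum_eq ρ x _ h1, sum_eq ρ y _ h2, sum_eq ρ (x + y) (max N N')
      (fun l hl => by rw [map_add, h1 l hl, h2 l hl, add_zero]), ← smul_add,
      ← Finset.sum_add_distrib]
    congr 1
    exact Finset.sum_congr rfl fun l _ => map_add _ _ _
  map_smul' c x := by
    obtain ⟨N, hN⟩ := h_trunc ρ x
    rw [sum_eq ρ x _ hN, sum_eq ρ (c • x) N (fun l hl => by rw [map_smul, hN l hl, smul_zero]),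
      RingHom.id_apply, smul_comm c, Finset.smul_sum (r := c)]
    congr 1
    exact Finset.sum_congr rfl fun l _ => map_smul _ _ _

theorem K_eq (ρ : Rep M) (w : M) (N : ℕ) (hN : ∀ l : ℕ, N ≤ l → ρ.h ((l : ℤ) + 1) w = 0) :
    K ρ w = (1 / 2 : ℂ) • ∑ l ∈ Finset.range N, g ρ l w := by
  rw [← sum_eq ρ w N hN]
  rfl

/-- KK -/
theorem kk : S_KK.{u} := by
  intro M _ _ ρ
  refine ⟨K ρ, ?_, ?_, ?_, ?_⟩
  · intro w hw
    rw [K_eq ρ w 0 (fun l _ => hw _ (by positivity)), Finset.sum_range_zero, smul_zero]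
  · intro l w
    obtain ⟨N, hN⟩ := h_trunc ρ w
    obtain ⟨N', hN'⟩ := h_trunc ρ (ρ.h (-(l : ℤ) - 1) w)
    set L := max (max N N') (l + 1) with hL
    have a1 : ∀ n : ℕ, L ≤ n → ρ.h ((n : ℤ) + 1) w = 0 := fun n hn => hN n (by omega)
    have a2 : ∀ n : ℕ, L ≤ n → ρ.h ((n : ℤ) + 1) (ρ.h (-(l : ℤ) - 1) w) = 0 :=
      fun n hn => hN' n (by omega)
    rw [K_eq ρ w L a1, K_eq ρ _ L a2]
    have e1 : ∀ n ∈ Finset.range L, g ρ n (ρ.h (-(l : ℤ) - 1) w) =
        ρ.h (-(l : ℤ) - 1) (g ρ n w) +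
          (if n = l then (2 * ((l : ℂ) + 1)) • ρ.h (-(l : ℤ) - 1) w else 0) := by
      intro n _
      rw [g_apply, g_apply]
      have b1 := ρ.hh ((n : ℤ) + 1) (-(l : ℤ) - 1) w
      have b2 := ρ.hh (-(n : ℤ) - 1) (-(l : ℤ) - 1) (ρ.h ((n : ℤ) + 1) w)
      rw [if_neg (by omega), zero_smul, sub_eq_zero] at b2
      rw [sub_eq_iff_eq_add] at b1
      rw [b1, map_add, b2, map_smul, add_comm]
      congr 1
      by_cases h : n = l
      · subst h
        rw [if_pos (by ring), if_pos rfl]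
        push_cast
        ring_nf
      · rw [if_neg (by omega), if_neg h, zero_smul]
    rw [Finset.sum_congr rfl e1, Finset.sum_add_distrib, Finset.sum_ite_eq',
      if_pos (Finset.mem_range.2 (by omega)), smul_add, map_smul, map_sum, smul_smul]
    congr 2
    ring
  · intro l w
    obtain ⟨N, hN⟩ := h_trunc ρ w
    obtain ⟨N', hN'⟩ := h_trunc ρ (ρ.h ((l : ℤ) + 1) w)
    set L := max (max N N') (l + 1) with hL
    have a1 : ∀ n : ℕ, L ≤ n → ρ.h ((n : ℤ) + 1) w = 0 := fun n hn => hN n (by omega)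
    have a2 : ∀ n : ℕ, L ≤ n → ρ.h ((n : ℤ) + 1) (ρ.h ((l : ℤ) + 1) w) = 0 :=
      fun n hn => hN' n (by omega)
    rw [K_eq ρ w L a1, K_eq ρ _ L a2]
    have e1 : ∀ n ∈ Finset.range L, g ρ n (ρ.h ((l : ℤ) + 1) w) =
        ρ.h ((l : ℤ) + 1) (g ρ n w) +
          (if n = l then (-(2 * ((l : ℂ) + 1))) • ρ.h ((l : ℤ) + 1) w else 0) := by
      intro n _
      rw [g_apply, g_apply]
      have b1 := ρ.hh ((n : ℤ) + 1) ((l : ℤ) + 1) w
      have b2 := ρ.hh (-(n : ℤ) - 1) ((l : ℤ) + 1) (ρ.h ((n : ℤ) + 1) w)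
      rw [if_neg (by omega), zero_smul, sub_eq_zero] at b1
      rw [sub_eq_iff_eq_add] at b2
      rw [b1, b2, add_comm]
      congr 1
      by_cases h : n = l
      · subst h
        rw [if_pos (by ring), if_pos rfl]
        push_cast
        ring_nf
      · rw [if_neg (by omega), if_neg h, zero_smul]
    rw [Finset.sum_congr rfl e1, Finset.sum_add_distrib, Finset.sum_ite_eq',
      if_pos (Finset.mem_range.2 (by omega)), smul_add, map_smul, map_sum, smul_smul,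
      sub_eq_add_neg, ← neg_smul]
    congr 2
    ring
  · intro S w hS hw
    obtain ⟨N, hN⟩ := h_trunc ρ w
    rw [K_eq ρ w N hN]
    exact S.smul_mem _ (S.sum_mem fun l _ => hS l _ (hw l))

end Pool.Agent.W683.VO
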